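import Mathlib

set_option autoImplicit false

/-! # Logarithmic means of periodic functions (helper958) -/

open Filter Topology Finset

namespace Pool.Agent.U958.PF

/-- partial sums of the harmonic series -/
lemma harm : Tendsto (fun x : ℕ => (∑ n ∈ range x, 1 / ((n : ℝ) + 1)) / Real.log x) atTop (𝓝 1) := by
  have h1 := Real.tendsto_harmonic_sub_log
  have h2 : Tendsto (fun x : ℕ => Real.log x) atTop atTop :=
    Real.tendsto_log_atTop.comp tendsto_natCast_atTop_atTop
  have h3 : Tendsto (fun x : ℕ => ((harmonic x : ℝ) - Real.log x) / Real.log x) atTop (𝓝 0) := h1.div_atTop h2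
  have h4 := h3.add_const 1
  rw [zero_add] at h4
  refine h4.congr' ?_
  filter_upwards [h2.eventually_gt_atTop 0] with x hx
  have h5 : (harmonic x : ℝ) = ∑ n ∈ range x, 1 / ((n : ℝ) + 1) := by
    unfold harmonic
    push_cast
    exact sum_congr rfl fun i _ => by rw [one_div]
  rw [← h5]
  field_simp
  ring

lemma harm_top : Tendsto (fun x : ℕ => ∑ n ∈ range x, 1 / ((n : ℝ) + 1)) atTop atTop := by
  have h2 : Tendsto (fun x : ℕ => Real.log x) atTop atTop :=
    Real.tendsto_log_atTop.comp tendsto_natCast_atTop_atTop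
  have h3 := harm.pos_mul_atTop one_pos h2
  refine h3.congr' ?_
  filter_upwards [h2.eventually_gt_atTop 0] with x hx
  field_simp

/-- a periodic function with mean zero has bounded logarithmic sums -/
lemma per_zero (h : ℕ → ℝ) (T : ℕ) (hT : 0 < T) (hper : ∀ n, h (n + T) = h n)
    (h0 : ∑ t ∈ range T, h t = 0) :
    Tendsto (fun x : ℕ => (∑ n ∈ range x, h n / ((n : ℝ) + 1)) / Real.log x) atTop (𝓝 0) := by
  have hS : ∀ x, ∑ n ∈ range (x + T), h n = ∑ n ∈ range x, h n := by
    intro x
    induction x with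
    | zero => simpa using h0
    | succ x ih =>
      rw [show x + 1 + T = (x + T) + 1 by ring, sum_range_succ, ih, hper, sum_range_succ]
  have hSm : ∀ x, ∑ n ∈ range x, h n = ∑ n ∈ range (x % T), h n := by
    intro x
    have hp : Function.Periodic (fun x => ∑ n ∈ range x, h n) T := hS
    exact (hp.map_mod_nat x).symm
  set b : ℝ := ∑ t ∈ range T, |h t| with hb
  have hbd : ∀ x, ‖∑ n ∈ range x, h n‖ ≤ b := by
    intro x
    rw [hSm, Real.norm_eq_abs]
    refine (abs_sum_le_sum_abs _ _).trans ?_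
    exact sum_le_sum_of_subset_of_nonneg (range_mono (Nat.mod_lt x hT).le) fun _ _ _ => abs_nonneg _
  have ha : Antitone (fun n : ℕ => 1 / ((n : ℝ) + 1)) := by
    intro m n hmn
    have : (m : ℝ) ≤ n := by exact_mod_cast hmn
    show 1 / ((n : ℝ) + 1) ≤ 1 / ((m : ℝ) + 1)
    gcongr
  have hc := ha.cauchySeq_series_mul_of_tendsto_zero_of_bounded tendsto_one_div_add_atTop_nhds_zero_nat hbd
  obtain ⟨l, hl⟩ := cauchySeq_tendsto_of_complete hc
  have h2 : Tendsto (fun x : ℕ => Real.log x) atTop atTop :=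
    Real.tendsto_log_atTop.comp tendsto_natCast_atTop_atTop
  have h3 := hl.div_atTop h2
  refine h3.congr fun x => ?_
  congr 1
  refine sum_congr rfl fun i _ => ?_
  rw [smul_eq_mul]
  ring

/-- logarithmic mean of a periodic function -/
lemma per_mean (g : ℕ → ℝ) (T : ℕ) (hT : 0 < T) (hper : ∀ n, g (n + T) = g n) :
    Tendsto (fun x : ℕ => (∑ n ∈ range x, g n / ((n : ℝ) + 1)) / Real.log x) atTop
      (𝓝 ((∑ t ∈ range T, g t) / T)) := by
  have hT' : (0 : ℝ) < T := by exact_mod_cast hT
  set m : ℝ := (∑ t ∈ range T, g t) / T with hm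
  have h1 := per_zero (fun n => g n - m) T hT (fun n => by simp only [hper]) (by
    rw [sum_sub_distrib, sum_const, card_range, nsmul_eq_mul, hm]
    field_simp
    ring)
  have h2 := harm.const_mul m
  have h3 := h1.add h2
  rw [zero_add, mul_one] at h3
  refine h3.congr fun x => ?_
  rw [← mul_div_assoc, ← add_div, mul_sum, ← sum_add_distrib]
  congr 1
  refine sum_congr rfl fun i _ => ?_
  field_simp
  ring

/-- the logarithmic mean with weights `1 / log D n`, `log D n ~ c n` -/
lemma log_mean (g : ℕ → ℝ) (T : ℕ) (hT : 0 < T) (hper : ∀ n, g (n + T) = g n) (W c : ℝ) (hc : 0 < c)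
    (l : ℕ → ℝ) (hl : Tendsto (fun n : ℕ => l n / n) atTop (𝓝 c)) (r : ℕ → ℝ)
    (hr : ∀ᶠ n in atTop, r n = g n * (W / l n)) :
    Tendsto (fun x : ℕ => (∑ n ∈ range x, r n) / Real.log x) atTop
      (𝓝 (W / c * ((∑ t ∈ range T, g t) / T))) := by
  have hb : ∃ C : ℝ, ∀ n, |g n| ≤ C := by
    refine ⟨∑ t ∈ range T, |g t|, fun n => ?_⟩
    have hp : Function.Periodic g T := hper
    rw [← hp.map_mod_nat n]
    exact single_le_sum (f := fun t => |g t|) (fun i _ => abs_nonneg _) (mem_range.2 (Nat.mod_lt n hT))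
  obtain ⟨C, hC⟩ := hb
  have hln : Tendsto (fun n : ℕ => ((n : ℝ) + 1) / l n) atTop (𝓝 (1 / c)) := by
    have h1 : Tendsto (fun n : ℕ => ((n : ℝ) + 1) / n) atTop (𝓝 1) := by
      have h2 := tendsto_one_div_atTop_nhds_zero_nat (𝕜 := ℝ)
      have h3 := h2.const_add 1
      rw [add_zero] at h3
      refine h3.congr' ?_
      filter_upwards [eventually_gt_atTop 0] with n hn
      have : (0 : ℝ) < n := by exact_mod_cast hn
      field_simp
    have h2 := h1.div hl hc.ne'
    refine h2.congr' ?_
    filter_upwards [eventually_gt_atTop 0] with n hn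
    have : (0 : ℝ) < n := by exact_mod_cast hn
    show ((n : ℝ) + 1) / n / (l n / n) = _
    rw [div_div_div_cancel_right₀ this.ne']
  have hlo : (fun n : ℕ => r n - g n * (W / c) / ((n : ℝ) + 1)) =o[atTop] (fun n : ℕ => 1 / ((n : ℝ) + 1)) := by
    rw [Asymptotics.isLittleO_iff_tendsto' (by
      filter_upwards with n h
      have : (0 : ℝ) < 1 / ((n : ℝ) + 1) := by positivity
      exact absurd h this.ne')]
    have h1 : Tendsto (fun n : ℕ => C * |W| * |((n : ℝ) + 1) / l n - 1 / c|) atTop (𝓝 0) := by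
      have h2 := (hln.sub_const (1 / c)).abs.const_mul (C * |W|)
      rw [sub_self, abs_zero, mul_zero] at h2
      exact h2
    refine squeeze_zero_norm' ?_ h1
    filter_upwards [hr] with n hn
    rw [hn, Real.norm_eq_abs]
    have e : (g n * (W / l n) - g n * (W / c) / ((n : ℝ) + 1)) / (1 / ((n : ℝ) + 1)) =
        g n * W * (((n : ℝ) + 1) / l n - 1 / c) := by
      have : (0 : ℝ) < (n : ℝ) + 1 := by positivity
      by_cases hl0 : l n = 0
      · rw [hl0]
        simp
        field_simp
      · field_simp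
    rw [e, abs_mul, abs_mul]
    gcongr
    exact hC n
  have h5 := hlo.sum_range (fun n => by positivity) harm_top
  have h6 : Tendsto (fun x : ℕ => (∑ n ∈ range x, (r n - g n * (W / c) / ((n : ℝ) + 1))) / Real.log x)
      atTop (𝓝 0) := by
    have h7 := h5.tendsto_div_nhds_zero.mul harm
    rw [zero_mul] at h7
    refine h7.congr' ?_
    filter_upwards [eventually_gt_atTop 0] with x hx
    have : (0 : ℝ) < ∑ n ∈ range x, 1 / ((n : ℝ) + 1) :=
      sum_pos (fun i _ => by positivity) ⟨0, mem_range.2 hx⟩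
    rw [div_mul_div_cancel₀ this.ne']
  have h8 := (per_mean g T hT hper).const_mul (W / c)
  have h9 := h6.add h8
  rw [zero_add] at h9
  refine h9.congr fun x => ?_
  rw [← mul_div_assoc, ← add_div, mul_sum, ← sum_add_distrib]
  congr 1
  refine sum_congr rfl fun i _ => ?_
  ring

end Pool.Agent.U958.PF
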