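import Mathlib
import Pool.Agent.R528.RM.BHOut
import Pool.Agent.U958.PF.Ana

set_option autoImplicit false

/-! # Sequential random models with finitely many sieving primes along exponential sequences (helper958) -/

open MeasureTheory Filter Topology

namespace Pool.Agent.U958.PF

open Pool.Agent.R528.RM

/-- no prime of `Q` divides `n` -/
def Free (Q : Finset ℕ) (n : ℕ) : Prop := ∀ p ∈ Q, ¬ p ∣ n

/-- `∏_{p ∈ Q} (1 - 1/p)⁻¹` -/
noncomputable def WQ (Q : Finset ℕ) : ℝ := ∏ p ∈ Q, (1 - 1 / (p : ℝ))⁻¹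

lemma WQ_pos (Q : Finset ℕ) (hQ : ∀ p ∈ Q, p.Prime) : 0 < WQ Q := by
  refine Finset.prod_pos fun p hp => inv_pos.2 ?_
  have : (1 : ℝ) < p := by exact_mod_cast (hQ p hp).one_lt
  rw [sub_pos, div_lt_one (by linarith)]
  exact this

open Classical in
/-- the profile -/
noncomputable def rhoQ (Q : Finset ℕ) (n : ℕ) : ℝ := if Free Q n then min 1 (WQ Q / Real.log n) else 0

lemma logN : Tendsto (fun n : ℕ => Real.log n) atTop atTop :=
  Real.tendsto_log_atTop.comp tendsto_natCast_atTop_atTop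

lemma log_succ_ratio' : Tendsto (fun n : ℕ => Real.log ((n + 1 : ℕ) : ℝ) / Real.log n) atTop (𝓝 1) := by
  have h1 : Tendsto (fun n : ℕ => (Real.log ((n : ℝ) + 1) - Real.log n) / Real.log n) atTop (𝓝 0) :=
    Real.tendsto_log_nat_add_one_sub_log.div_atTop logN
  have h2 := h1.add_const 1
  rw [zero_add] at h2
  refine h2.congr' ?_
  filter_upwards [eventually_gt_atTop 1] with n hn
  have : 0 < Real.log (n : ℝ) := Real.log_pos (by exact_mod_cast hn)
  push_cast
  field_simp
  ring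

lemma rhoQ_bounds (Q : Finset ℕ) (hQ : ∀ p ∈ Q, p.Prime) (n : ℕ) : 0 ≤ rhoQ Q n ∧ rhoQ Q n ≤ 1 := by
  have h1 := (WQ_pos Q hQ).le
  have h2 := Real.log_natCast_nonneg n
  unfold rhoQ
  split_ifs
  · exact ⟨le_min zero_le_one (div_nonneg h1 h2), min_le_left _ _⟩
  · exact ⟨le_rfl, zero_le_one⟩

section

variable {Ω : Type} {m0 : MeasurableSpace Ω} {μ : Measure Ω} [IsProbabilityMeasure μ]
  {ℱ : Filtration ℕ m0} {A : ℕ → Set Ω}

omit [IsProbabilityMeasure μ] in
/-- the densities follow the profile -/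
lemma profileQ (Q : Finset ℕ) (hQ : ∀ p ∈ Q, p.Prime)
    (hcop : ∀ n, ¬ Free Q n → A n = ∅)
    (hd : ∀ᵐ ω ∂μ, Tendsto (fun n : ℕ => dens μ ℱ A n ω * Real.log n)
      (atTop ⊓ 𝓟 {n : ℕ | Free Q (n + 1)}) (𝓝 (WQ Q))) :
    ∀ᵐ ω ∂μ, ∀ ε : ℝ, 0 < ε → ∀ᶠ n : ℕ in atTop,
      |dens μ ℱ A n ω - rhoQ Q (n + 1)| ≤ ε * rhoQ Q (n + 1) := by
  have hW := WQ_pos Q hQ
  have hz' : ∀ᵐ ω ∂μ, ∀ n, ¬ Free Q (n + 1) → dens μ ℱ A n ω = 0 := by
    rw [ae_all_iff]
    intro n
    by_cases h : Free Q (n + 1)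
    · exact Eventually.of_forall fun ω h2 => absurd h h2
    · have h1 : dens μ ℱ A n =ᵐ[μ] 0 := by
        unfold dens
        rw [hcop _ h, Set.indicator_empty]
        rw [show (fun _ : Ω => (0 : ℝ)) = 0 from rfl, condExp_zero]
      filter_upwards [h1] with ω hω _
      exact hω
  filter_upwards [hz', hd] with ω hω1 hω2 ε hε
  have h1 : Tendsto (fun n : ℕ => dens μ ℱ A n ω * Real.log ((n + 1 : ℕ) : ℝ) / WQ Q)
      (atTop ⊓ 𝓟 {n : ℕ | Free Q (n + 1)}) (𝓝 1) := by
    have h2 := (hω2.mul (log_succ_ratio'.mono_left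
      (inf_le_left : atTop ⊓ 𝓟 {n : ℕ | Free Q (n + 1)} ≤ atTop))).div_const (WQ Q)
    rw [mul_one, div_self hW.ne'] at h2
    refine h2.congr' ?_
    apply Filter.Eventually.filter_mono inf_le_left
    filter_upwards [eventually_gt_atTop 1] with n hn
    have hn' : (1 : ℝ) < n := by exact_mod_cast hn
    have hl : 0 < Real.log (n : ℝ) := Real.log_pos hn'
    field_simp
  have h2 := (Metric.tendsto_nhds.1 h1) ε hε
  rw [eventually_inf_principal] at h2
  have h3 : ∀ᶠ n : ℕ in atTop, WQ Q / Real.log ((n + 1 : ℕ) : ℝ) < 1 := by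
    have h : Tendsto (fun n : ℕ => WQ Q / Real.log ((n + 1 : ℕ) : ℝ)) atTop (𝓝 0) :=
      (logN.comp (tendsto_add_atTop_nat 1)).const_div_atTop _
    exact h.eventually (gt_mem_nhds one_pos)
  filter_upwards [h2, h3, eventually_gt_atTop 2] with n hn hn2 hn3
  by_cases hcp : Free Q (n + 1)
  · have h4 := hn hcp
    have hl : 0 < Real.log ((n + 1 : ℕ) : ℝ) := Real.log_pos (by
      push_cast
      have : (2 : ℝ) < n := by exact_mod_cast hn3
      linarith)
    have e1 : rhoQ Q (n + 1) = WQ Q / Real.log ((n + 1 : ℕ) : ℝ) := by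
      unfold rhoQ
      rw [if_pos hcp, min_eq_right hn2.le]
    rw [e1]
    rw [Real.dist_eq] at h4
    have e2 : dens μ ℱ A n ω - WQ Q / Real.log ((n + 1 : ℕ) : ℝ) =
        (dens μ ℱ A n ω * Real.log ((n + 1 : ℕ) : ℝ) / WQ Q - 1) *
          (WQ Q / Real.log ((n + 1 : ℕ) : ℝ)) := by
      field_simp
    have h5 : 0 < WQ Q / Real.log ((n + 1 : ℕ) : ℝ) := by positivity
    rw [e2, abs_mul, abs_of_pos h5]
    exact mul_le_mul_of_nonneg_right h4.le h5.le
  · rw [hω1 n hcp]
    have e1 : rhoQ Q (n + 1) = 0 := by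
      unfold rhoQ
      rw [if_neg hcp]
    rw [e1]
    simp

open Classical in
/-- **The law along an exponential sequence.** -/
theorem expo_law (hA : ∀ n, MeasurableSet[ℱ n] (A n)) (Q : Finset ℕ) (hQ : ∀ p ∈ Q, p.Prime)
    (hcop : ∀ n, ¬ Free Q n → A n = ∅)
    (hd : ∀ᵐ ω ∂μ, Tendsto (fun n : ℕ => dens μ ℱ A n ω * Real.log n)
      (atTop ⊓ 𝓟 {n : ℕ | Free Q (n + 1)}) (𝓝 (WQ Q)))
    (D : ℕ → ℕ) (hmono : StrictMono D) (c : ℝ) (hc : 0 < c)
    (hlog : Tendsto (fun n : ℕ => Real.log (D n) / n) atTop (𝓝 c)) (T : ℕ) (hT : 0 < T)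
    (hper : ∀ n, Free Q (D (n + T)) ↔ Free Q (D n)) :
    ∀ᵐ ω ∂μ, Tendsto (fun x : ℕ => ({n : ℕ | n < x ∧ ω ∈ A (D n)}.ncard : ℝ) / Real.log x) atTop
      (𝓝 (WQ Q / c * ((((Finset.range T).filter (fun t => Free Q (D t))).card : ℝ) / T))) := by
  have hW := WQ_pos Q hQ
  set g : ℕ → ℝ := fun n => if Free Q (D n) then 1 else 0 with hg
  have hgsum : ∑ t ∈ Finset.range T, g t = (((Finset.range T).filter (fun t => Free Q (D t))).card : ℝ) := by
    rw [hg, Finset.sum_boole]
  have hDtop : Tendsto D atTop atTop := hmono.tendsto_atTop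
  have hlD : Tendsto (fun n => Real.log (D n)) atTop atTop := logN.comp hDtop
  have hr : ∀ᶠ n in atTop, rhoQ Q (D n) = g n * (WQ Q / Real.log (D n)) := by
    have h1 : ∀ᶠ n in atTop, WQ Q / Real.log (D n) < 1 :=
      (hlD.const_div_atTop (WQ Q)).eventually (gt_mem_nhds one_pos)
    filter_upwards [h1] with n hn
    unfold rhoQ
    by_cases h : Free Q (D n)
    · rw [if_pos h, min_eq_right hn.le, hg]
      simp only [if_pos h, one_mul]
    · rw [if_neg h, hg]
      simp only [if_neg h, zero_mul]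
  have hsum := log_mean g T hT (fun n => by simp only [hg, hper]) (WQ Q) c hc
    (fun n => Real.log (D n)) hlog (fun n => rhoQ Q (D n)) hr
  rw [hgsum] at hsum
  by_cases hz : ∃ n, Free Q (D n)
  · -- a positive density
    obtain ⟨n₀, hn₀⟩ := hz
    have hpos : (0 : ℝ) < (((Finset.range T).filter (fun t => Free Q (D t))).card : ℝ) := by
      have h1 : 0 < ((Finset.range T).filter (fun t => Free Q (D t))).card := by
        rw [Finset.card_pos]
        refine ⟨n₀ % T, Finset.mem_filter.2 ⟨Finset.mem_range.2 (Nat.mod_lt _ hT), ?_⟩⟩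
        have hp : Function.Periodic (fun n => Free Q (D n)) T := fun n => propext (hper n)
        have h2 : Free Q (D (n₀ % T)) = Free Q (D n₀) := hp.map_mod_nat n₀
        rw [h2]
        exact hn₀
      exact_mod_cast h1
    have hT' : (0 : ℝ) < T := by exact_mod_cast hT
    set κ := WQ Q / c * ((((Finset.range T).filter (fun t => Free Q (D t))).card : ℝ) / T) with hκ
    have hκ0 : 0 < κ := by positivity
    have htop : Tendsto (fun x => ∑ n ∈ Finset.range x, ∏ i ∈ ({()} : Finset Unit), rhoQ Q ((fun (_ : Unit) n => D n) i n))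
        atTop atTop := by
      have h1 := hsum.pos_mul_atTop hκ0 logN
      refine h1.congr' ?_
      filter_upwards [logN.eventually_gt_atTop 0] with x hx
      simp only [Finset.prod_singleton]
      field_simp
    have hprof := profileQ Q hQ hcop hd
    have h1 := general_final (μ := μ) hA (rhoQ Q) (rhoQ_bounds Q hQ) hprof ({()} : Finset Unit)
      (fun _ n => D n) (fun _ _ => Eventually.of_forall fun n => hmono (Nat.lt_succ_self n))
      (fun i _ j _ hij => absurd (Subsingleton.elim i j) hij) htop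
    filter_upwards [h1] with ω hω
    have h2 := hω.mul hsum
    rw [one_mul] at h2
    refine h2.congr' ?_
    filter_upwards [htop.eventually_gt_atTop 0] with x hx
    simp only [Finset.prod_singleton] at hx ⊢
    rw [div_mul_div_cancel₀ hx.ne']
    congr 3
    ext n
    simp
  · push Not at hz
    have h0 : ((Finset.range T).filter (fun t => Free Q (D t))) = ∅ :=
      Finset.filter_eq_empty_iff.2 fun t _ => hz t
    rw [h0]
    simp only [Finset.card_empty, Nat.cast_zero, zero_div, mul_zero]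
    refine Eventually.of_forall fun ω => ?_
    refine tendsto_const_nhds.congr fun x => ?_
    have : {n : ℕ | n < x ∧ ω ∈ A (D n)} = ∅ := by
      ext n
      simp only [Set.mem_ofPred_eq, Set.mem_empty_iff_false, iff_false, not_and]
      intro _ h
      rw [hcop _ (hz n)] at h
      exact h
    rw [this]
    simp

end

end Pool.Agent.U958.PF
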