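import Mathlib

set_option autoImplicit false

namespace Pool.Agent.U958.PF

lemma pne (N r : ℕ) (h1 : 1 < N) (h : r < N) (hr : r ≠ 1) : ((r : ℕ) : ZMod N) ≠ 1 := by
  intro h2
  have h3 : ((r : ℕ) : ZMod N) = ((1 : ℕ) : ZMod N) := by rw [h2, Nat.cast_one]
  rw [ZMod.natCast_eq_natCast_iff', Nat.mod_eq_of_lt h, Nat.mod_eq_of_lt h1] at h3
  exact hr h3

lemma prime7 : Nat.Prime 104411704393 := by
  refine lucas_primality 104411704393 ((10 : ℕ) : ZMod 104411704393) ?_ ?_
  · norm_num only
    reduce_mod_char
  · intro q hq hd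
    have h1 : (104411704393 - 1 : ℕ) = 2 ^ 3 * 3 ^ 2 * 113 ^ 2 * 337 ^ 2 := by norm_num
    rw [h1] at hd
    have h2 : q = 2 ∨ q = 3 ∨ q = 113 ∨ q = 337 := by
      rcases (hq.dvd_mul).1 hd with h | h
      · rcases (hq.dvd_mul).1 h with h | h
        · rcases (hq.dvd_mul).1 h with h | h
          · exact Or.inl ((Nat.prime_dvd_prime_iff_eq hq (by norm_num)).1 (hq.dvd_of_dvd_pow h))
          · exact Or.inr (Or.inl ((Nat.prime_dvd_prime_iff_eq hq (by norm_num)).1 (hq.dvd_of_dvd_pow h)))
        · exact Or.inr (Or.inr (Or.inl ((Nat.prime_dvd_prime_iff_eq hq (by norm_num)).1 (hq.dvd_of_dvd_pow h))))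
      · exact Or.inr (Or.inr (Or.inr ((Nat.prime_dvd_prime_iff_eq hq (by norm_num)).1 (hq.dvd_of_dvd_pow h))))
    rcases h2 with rfl | rfl | rfl | rfl
    · have h : ((10 : ℕ) : ZMod 104411704393) ^ ((104411704393 - 1) / 2) = ((104411704392 : ℕ) : ZMod 104411704393) := by
        norm_num only
        reduce_mod_char
      rw [h]
      exact pne _ _ (by norm_num) (by norm_num) (by norm_num)
    · have h : ((10 : ℕ) : ZMod 104411704393) ^ ((104411704393 - 1) / 3) = ((11749212508 : ℕ) : ZMod 104411704393) := by
        norm_num only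
        reduce_mod_char
      rw [h]
      exact pne _ _ (by norm_num) (by norm_num) (by norm_num)
    · have h : ((10 : ℕ) : ZMod 104411704393) ^ ((104411704393 - 1) / 113) = ((46390287065 : ℕ) : ZMod 104411704393) := by
        norm_num only
        reduce_mod_char
      rw [h]
      exact pne _ _ (by norm_num) (by norm_num) (by norm_num)
    · have h : ((10 : ℕ) : ZMod 104411704393) ^ ((104411704393 - 1) / 337) = ((60774134351 : ℕ) : ZMod 104411704393) := by
        norm_num only
        reduce_mod_char
      rw [h]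
      exact pne _ _ (by norm_num) (by norm_num) (by norm_num)

lemma prime13 : Nat.Prime 160459573394847767113 := by
  refine lucas_primality 160459573394847767113 ((5 : ℕ) : ZMod 160459573394847767113) ?_ ?_
  · norm_num only
    reduce_mod_char
  · intro q hq hd
    have h1 : (160459573394847767113 - 1 : ℕ) = 2 ^ 3 * 3 ^ 2 * 22307 ^ 2 * 66923 ^ 2 := by norm_num
    rw [h1] at hd
    have h2 : q = 2 ∨ q = 3 ∨ q = 22307 ∨ q = 66923 := by
      rcases (hq.dvd_mul).1 hd with h | h
      · rcases (hq.dvd_mul).1 h with h | h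
        · rcases (hq.dvd_mul).1 h with h | h
          · exact Or.inl ((Nat.prime_dvd_prime_iff_eq hq (by norm_num)).1 (hq.dvd_of_dvd_pow h))
          · exact Or.inr (Or.inl ((Nat.prime_dvd_prime_iff_eq hq (by norm_num)).1 (hq.dvd_of_dvd_pow h)))
        · exact Or.inr (Or.inr (Or.inl ((Nat.prime_dvd_prime_iff_eq hq (by norm_num)).1 (hq.dvd_of_dvd_pow h))))
      · exact Or.inr (Or.inr (Or.inr ((Nat.prime_dvd_prime_iff_eq hq (by norm_num)).1 (hq.dvd_of_dvd_pow h))))
    rcases h2 with rfl | rfl | rfl | rfl
    · have h : ((5 : ℕ) : ZMod 160459573394847767113) ^ ((160459573394847767113 - 1) / 2) = ((160459573394847767112 : ℕ) : ZMod 160459573394847767113) := by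
        norm_num only
        reduce_mod_char
      rw [h]
      exact pne _ _ (by norm_num) (by norm_num) (by norm_num)
    · have h : ((5 : ℕ) : ZMod 160459573394847767113) ^ ((160459573394847767113 - 1) / 3) = ((14438698986547291376 : ℕ) : ZMod 160459573394847767113) := by
        norm_num only
        reduce_mod_char
      rw [h]
      exact pne _ _ (by norm_num) (by norm_num) (by norm_num)
    · have h : ((5 : ℕ) : ZMod 160459573394847767113) ^ ((160459573394847767113 - 1) / 22307) = ((91204483981761388727 : ℕ) : ZMod 160459573394847767113) := by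
        norm_num only
        reduce_mod_char
      rw [h]
      exact pne _ _ (by norm_num) (by norm_num) (by norm_num)
    · have h : ((5 : ℕ) : ZMod 160459573394847767113) ^ ((160459573394847767113 - 1) / 66923) = ((83559327358810254424 : ℕ) : ZMod 160459573394847767113) := by
        norm_num only
        reduce_mod_char
      rw [h]
      exact pne _ _ (by norm_num) (by norm_num) (by norm_num)

end Pool.Agent.U958.PF
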