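import Mathlib
import Pool.Agent.R803.PellVals
import Pool.Agent.U958.PF.Prm

set_option autoImplicit false

/-! # The numbers `N_m = 8 d_m ^ 2 + 1 = 64 b_m ^ 2 + 9`: growth, periodicity (helper958) -/

open Filter Topology

namespace Pool.Agent.U958.PF

open Pool.Agent.R803.PV

lemma db1_pos (m : ℕ) : 1 ≤ (db m).1 := by
  have := pell m
  by_contra h
  have h0 : (db m).1 = 0 := by omega
  rw [h0] at this
  omega

lemma N_lt (m : ℕ) : N m < N (m + 1) := by
  have h1 := db1_pos m
  have h2 : (db (m + 1)).1 = 3 * (db m).1 + 8 * (db m).2 := rfl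
  unfold N
  rw [h2]
  nlinarith [Nat.zero_le (db m).2]

lemma N_mono : StrictMono N := strictMono_nat_of_lt_succ N_lt

lemma N_bounds (m : ℕ) : (3 + √8) ^ (2 * m) ≤ (N m : ℝ) ∧ (N m : ℝ) ≤ 9 * (3 + √8) ^ (2 * m) := by
  have h8 : (0 : ℝ) ≤ √8 := Real.sqrt_nonneg _
  have h8' : √8 ^ 2 = (8 : ℝ) := Real.sq_sqrt (by norm_num)
  have hr := real_eq m
  have hp : (((db m).1 : ℝ)) ^ 2 = 8 * ((db m).2 : ℝ) ^ 2 + 1 := by exact_mod_cast pell m
  have hd0 : (1 : ℝ) ≤ (db m).1 := by exact_mod_cast db1_pos m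
  have hb0 : (0 : ℝ) ≤ (db m).2 := Nat.cast_nonneg _
  have hbd : ((db m).2 : ℝ) * √8 ≤ (db m).1 := by
    by_contra h
    push Not at h
    have : ((db m).1 : ℝ) ^ 2 < (((db m).2 : ℝ) * √8) ^ 2 := by
      apply pow_lt_pow_left₀ h (by linarith) (by norm_num)
    rw [mul_pow, h8', hp] at this
    linarith
  have hN : (N m : ℝ) = 8 * ((db m).1 : ℝ) ^ 2 + 1 := by
    unfold N
    push_cast
    ring
  have e : (3 + √8) ^ (2 * m) = (((db m).1 : ℝ) + ((db m).2 : ℝ) * √8) ^ 2 := by
    rw [hr, ← pow_mul, mul_comm]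
  have h0 : 0 ≤ ((db m).2 : ℝ) * √8 := mul_nonneg hb0 h8
  rw [e, hN]
  constructor
  · nlinarith
  · nlinarith

lemma one_lt_u : (1 : ℝ) < 3 + √8 := by
  have h8 : (0 : ℝ) ≤ √8 := Real.sqrt_nonneg _
  linarith

lemma N_log : Tendsto (fun m : ℕ => Real.log (N m) / m) atTop (𝓝 (2 * Real.log (3 + √8))) := by
  have hu := one_lt_u
  have hpos : ∀ m : ℕ, (0 : ℝ) < (3 + √8) ^ (2 * m) := fun m => by positivity
  have h1 : ∀ m : ℕ, 2 * m * Real.log (3 + √8) ≤ Real.log (N m) := by
    intro m
    have h := Real.log_le_log (hpos m) (N_bounds m).1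
    rw [Real.log_pow] at h
    push_cast at h
    exact h
  have h2 : ∀ m : ℕ, Real.log (N m) ≤ Real.log 9 + 2 * m * Real.log (3 + √8) := by
    intro m
    have h := Real.log_le_log (lt_of_lt_of_le (hpos m) (N_bounds m).1) (N_bounds m).2
    rw [Real.log_mul (by norm_num) (hpos m).ne', Real.log_pow] at h
    push_cast at h
    exact h
  have h3 : Tendsto (fun m : ℕ => Real.log 9 / (m : ℝ) + 2 * Real.log (3 + √8)) atTop
      (𝓝 (2 * Real.log (3 + √8))) := by
    have h := (tendsto_natCast_atTop_atTop (R := ℝ)).const_div_atTop (Real.log 9)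
    have h' := h.add_const (2 * Real.log (3 + √8))
    rw [zero_add] at h'
    exact h'
  refine tendsto_of_tendsto_of_tendsto_of_le_of_le' tendsto_const_nhds h3 ?_ ?_
  · filter_upwards [eventually_gt_atTop 0] with m hm
    have hm' : (0 : ℝ) < m := by exact_mod_cast hm
    rw [le_div_iff₀ hm']
    have := h1 m
    linarith
  · filter_upwards [eventually_gt_atTop 0] with m hm
    have hm' : (0 : ℝ) < m := by exact_mod_cast hm
    rw [div_add' _ _ _ hm'.ne', div_le_div_iff_of_pos_right hm']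
    have := h2 m
    linarith

/-- growth in a class -/
lemma N_log_class (a L : ℕ) (hL : 0 < L) :
    Tendsto (fun n : ℕ => Real.log (N (a + L * n)) / n) atTop (𝓝 (2 * Real.log (3 + √8) * L)) := by
  have hL' : (0 : ℝ) < L := by exact_mod_cast hL
  have ht : Tendsto (fun n : ℕ => a + L * n) atTop atTop :=
    tendsto_atTop_mono (fun n => by
      have := Nat.le_mul_of_pos_left n hL
      show n ≤ a + L * n
      linarith) tendsto_id
  have h1 := N_log.comp ht
  have h2 : Tendsto (fun n : ℕ => (((a + L * n : ℕ) : ℝ)) / n) atTop (𝓝 (L : ℝ)) := by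
    have h := (tendsto_natCast_atTop_atTop (R := ℝ)).const_div_atTop (a : ℝ)
    have h' := h.add_const (L : ℝ)
    rw [zero_add] at h'
    refine h'.congr' ?_
    filter_upwards [eventually_gt_atTop 0] with n hn
    have hn' : (0 : ℝ) < n := by exact_mod_cast hn
    push_cast
    field_simp
  have h3 := h1.mul h2
  refine h3.congr' ?_
  filter_upwards [eventually_gt_atTop 0] with n hn
  have hn' : (0 : ℝ) < n := by exact_mod_cast hn
  have hn2 : (0 : ℝ) < ((a + L * n : ℕ) : ℝ) := by
    have : 0 < a + L * n := by positivity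
    exact_mod_cast this
  simp only [Function.comp]
  field_simp

/-- the recursion modulo `P`, a permutation of pairs -/
def sig (P : ℕ) : Equiv.Perm (ZMod P × ZMod P) where
  toFun x := (3 * x.1 + 8 * x.2, x.1 + 3 * x.2)
  invFun x := (3 * x.1 - 8 * x.2, - x.1 + 3 * x.2)
  left_inv x := by
    ext
    · simp only
      ring
    · simp only
      ring
  right_inv x := by
    ext
    · simp only
      ring
    · simp only
      ring

lemma sig_db (P m : ℕ) : (((db m).1 : ZMod P), ((db m).2 : ZMod P)) = (sig P ^ m) (1, 0) := by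
  induction m with
  | zero => simp [db]
  | succ m ih =>
    rw [pow_succ', Equiv.Perm.mul_apply, ← ih]
    simp [sig, db]

/-- the numbers `N_m` are purely periodic modulo `P` -/
lemma N_per (P : ℕ) (hP : 0 < P) : ∃ T : ℕ, 0 < T ∧ ∀ m, ((N (m + T) : ℕ) : ZMod P) = ((N m : ℕ) : ZMod P) := by
  have : NeZero P := ⟨hP.ne'⟩
  refine ⟨orderOf (sig P), orderOf_pos _, fun m => ?_⟩
  have h1 := sig_db P (m + orderOf (sig P))
  rw [pow_add, pow_orderOf_eq_one, mul_one, ← sig_db P m] at h1
  have h2 := congrArg Prod.fst h1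
  simp only at h2
  unfold N
  push_cast
  rw [h2]

/-- all solutions of `d ^ 2 = 8 b ^ 2 + 1` in natural numbers -/
lemma all_sol (b : ℕ) : ∀ d : ℕ, d ^ 2 = 8 * b ^ 2 + 1 → ∃ m, db m = (d, b) := by
  induction b using Nat.strong_induction_on with
  | _ b ih =>
    intro d h
    rcases Nat.eq_zero_or_pos b with rfl | hb
    · have hd : d = 1 := by nlinarith
      exact ⟨0, by rw [hd]; rfl⟩
    · have h1 : d ≤ 3 * b := by nlinarith
      have h2 : 2 * b < d := by nlinarith
      have h3 : 8 * b < 3 * d := by nlinarith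
      obtain ⟨b', hb'⟩ := Nat.exists_eq_add_of_le h1
      obtain ⟨d', hd'⟩ := Nat.exists_eq_add_of_lt h3
      have hlt : b' < b := by omega
      have e : (d' + 1) ^ 2 = 8 * b' ^ 2 + 1 := by
        zify at h hb' hd' ⊢
        have e1 : (d' : ℤ) + 1 = 3 * d - 8 * b := by linarith
        have e2 : (b' : ℤ) = 3 * b - d := by linarith
        rw [e1, e2]
        linear_combination h
      obtain ⟨m, hm⟩ := ih b' hlt (d' + 1) e
      refine ⟨m + 1, ?_⟩
      have e3 : db (m + 1) = (3 * (db m).1 + 8 * (db m).2, (db m).1 + 3 * (db m).2) := rfl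
      rw [e3, hm]
      ext
      · simp only
        omega
      · simp only
        omega

/-- the numbers `64 b ^ 2 + 9 = 8 d ^ 2 + 1` are the numbers `N_m` -/
lemma adm_iff (n : ℕ) : (∃ b d : ℤ, (n : ℤ) = 64 * b ^ 2 + 9 ∧ (n : ℤ) = 8 * d ^ 2 + 1) ↔ ∃ m, N m = n := by
  constructor
  · rintro ⟨b, d, h1, h2⟩
    have h3 : d.natAbs ^ 2 = 8 * b.natAbs ^ 2 + 1 := by
      zify
      rw [sq_abs, sq_abs]
      linarith
    obtain ⟨m, hm⟩ := all_sol _ _ h3
    refine ⟨m, ?_⟩
    unfold N
    rw [hm]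
    zify
    rw [sq_abs, h2]
  · rintro ⟨m, rfl⟩
    refine ⟨(db m).2, (db m).1, ?_, ?_⟩
    · rw [N_eq]
      push_cast
      ring
    · unfold N
      push_cast
      ring

lemma N_one : N 1 = 73 := by simp [N, db]
lemma N_seven : N 7 = 104411704393 := by simp [N, db]
lemma N_thirteen : N 13 = 160459573394847767113 := by simp [N, db]

end Pool.Agent.U958.PF
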