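import Mathlib
import Pool.Agent.U958.PF.Num

set_option autoImplicit false

/-! # Counting by size (helper958) -/

open Filter Topology

namespace Pool.Agent.U958.PF

open Pool.Agent.R803.PV

lemma ex_lt (X : ℕ) : ∃ m, X < N m := ⟨X + 1, lt_of_lt_of_le (Nat.lt_succ_self X) N_mono.le_apply⟩

/-- the number of the `m` with `N m ≤ X` -/
noncomputable def MX (X : ℕ) : ℕ := Nat.find (ex_lt X)

lemma lt_MX (X m : ℕ) : m < MX X ↔ N m ≤ X := by
  constructor
  · intro h
    have := Nat.find_min (ex_lt X) h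
    omega
  · intro h
    by_contra h2
    push Not at h2
    have h3 : X < N (MX X) := Nat.find_spec (ex_lt X)
    have h4 := N_mono.monotone h2
    omega

lemma MX_top : Tendsto MX atTop atTop := by
  rw [tendsto_atTop]
  intro m
  filter_upwards [eventually_ge_atTop (N m)] with X hX
  exact ((lt_MX X m).2 hX).le

lemma N_log_bounds (m : ℕ) : 2 * m * Real.log (3 + √8) ≤ Real.log (N m) ∧
    Real.log (N m) ≤ Real.log 9 + 2 * m * Real.log (3 + √8) := by
  have hu := one_lt_u
  have hpos : ∀ m : ℕ, (0 : ℝ) < (3 + √8) ^ (2 * m) := fun m => by positivity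
  constructor
  · have h := Real.log_le_log (hpos m) (N_bounds m).1
    rw [Real.log_pow] at h
    push_cast at h
    exact h
  · have h := Real.log_le_log (lt_of_lt_of_le (hpos m) (N_bounds m).1) (N_bounds m).2
    rw [Real.log_mul (by norm_num) (hpos m).ne', Real.log_pow] at h
    push_cast at h
    exact h

lemma MX_ratio : Tendsto (fun X : ℕ => Real.log X / (MX X : ℝ)) atTop (𝓝 (2 * Real.log (3 + √8))) := by
  have hMt : Tendsto (fun X : ℕ => (MX X : ℝ)) atTop atTop := tendsto_natCast_atTop_atTop.comp MX_top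
  set u := Real.log (3 + √8) with hu
  have h1 : Tendsto (fun X : ℕ => 2 * u - 2 * u / (MX X : ℝ)) atTop (𝓝 (2 * u)) := by
    have h := (hMt.const_div_atTop (2 * u)).const_sub (2 * u)
    rwa [sub_zero] at h
  have h2 : Tendsto (fun X : ℕ => Real.log 9 / (MX X : ℝ) + 2 * u) atTop (𝓝 (2 * u)) := by
    have h := (hMt.const_div_atTop (Real.log 9)).add_const (2 * u)
    rwa [zero_add] at h
  refine tendsto_of_tendsto_of_tendsto_of_le_of_le' h1 h2 ?_ ?_
  · filter_upwards [MX_top.eventually_gt_atTop 0] with X hX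
    have hX' : (0 : ℝ) < MX X := by exact_mod_cast hX
    have h3 : N (MX X - 1) ≤ X := (lt_MX X _).1 (by omega)
    have h4 : Real.log (N (MX X - 1)) ≤ Real.log X :=
      Real.log_le_log (by exact_mod_cast (by unfold N; omega : 0 < N (MX X - 1))) (by exact_mod_cast h3)
    have h5 := (N_log_bounds (MX X - 1)).1
    have h6 : ((MX X - 1 : ℕ) : ℝ) = MX X - 1 := by
      rw [Nat.cast_sub hX]
      simp
    rw [h6] at h5
    rw [le_div_iff₀ hX', sub_mul, div_mul_cancel₀ _ hX'.ne']
    linarith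
  · filter_upwards [MX_top.eventually_gt_atTop 0, eventually_gt_atTop 0] with X hX hX0
    have hX' : (0 : ℝ) < MX X := by exact_mod_cast hX
    have h3 : X < N (MX X) := Nat.find_spec (ex_lt X)
    have h4 : Real.log X ≤ Real.log (N (MX X)) :=
      Real.log_le_log (by exact_mod_cast hX0) (by exact_mod_cast h3.le)
    have h5 := (N_log_bounds (MX X)).2
    rw [div_add' _ _ _ hX'.ne', div_le_div_iff_of_pos_right hX']
    linarith

lemma MX_log : Tendsto (fun X : ℕ => Real.log (MX X : ℝ) / Real.log (Real.log X)) atTop (𝓝 1) := by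
  have hu : 0 < Real.log (3 + √8) := Real.log_pos one_lt_u
  have h1 := (Real.continuousAt_log (show (2 * Real.log (3 + √8)) ≠ 0 by positivity)).tendsto.comp MX_ratio
  have hlog : Tendsto (fun X : ℕ => Real.log X) atTop atTop :=
    Real.tendsto_log_atTop.comp tendsto_natCast_atTop_atTop
  have hll : Tendsto (fun X : ℕ => Real.log (Real.log X)) atTop atTop := Real.tendsto_log_atTop.comp hlog
  have h2 := h1.div_atTop hll
  have h3 := h2.const_sub 1
  rw [sub_zero] at h3
  refine h3.congr' ?_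
  filter_upwards [MX_top.eventually_gt_atTop 0, hlog.eventually_gt_atTop 0, hll.eventually_gt_atTop 0]
    with X hX hX1 hX2
  have hX' : (0 : ℝ) < MX X := by exact_mod_cast hX
  simp only [Function.comp]
  rw [Real.log_div hX1.ne' hX'.ne']
  field_simp
  ring

/-- the number of the `N m ≤ X` in a set -/
lemma card_le (S : Set ℕ) (X : ℕ) :
    {p : ℕ | p ≤ X ∧ p ∈ S ∧ ∃ m, N m = p}.ncard = {m : ℕ | m < MX X ∧ N m ∈ S}.ncard := by
  have : {p : ℕ | p ≤ X ∧ p ∈ S ∧ ∃ m, N m = p} = N '' {m : ℕ | m < MX X ∧ N m ∈ S} := by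
    ext p
    constructor
    · rintro ⟨h1, h2, m, rfl⟩
      exact ⟨m, ⟨(lt_MX X m).2 h1, h2⟩, rfl⟩
    · rintro ⟨m, ⟨h1, h2⟩, rfl⟩
      exact ⟨(lt_MX X m).1 h1, h2, m, rfl⟩
  rw [this, Set.ncard_image_of_injective _ N_mono.injective]

end Pool.Agent.U958.PF
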